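import Pool.Agent.Helper95.HS.GoalsA
import Pool.Agent.Helper62.SP.FINV

/-! # HS-AYX: Aubin-Yau for a field with a potential -/

open Complex Metric Set Filter Topology MeasureTheory
open scoped ContDiff ComplexConjugate ComplexOrder Manifold Matrix

namespace Pool.Agent.Helper90.HS

open Pool.Agent.Helper95.Lin Pool.Agent.Helper16.Abund Pool.Agent.Helper10.SP
  Pool.Agent.Helper57.HS Pool.Agent.Helper95.HS

universe u

/-- AYX. -/
theorem ayx (hW : S_WIRT) (h1 : S_AYGB.{u}) (h2 : S_KETP.{u}) : S_AYX.{u} := by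
  intro n T G _ R H a χ φ hC hP f hf β hβ
  have hE := hC.ket.et
  have hT := hE.isOpen
  obtain ⟨k1, k2, -⟩ := h2 T R hE
  have hQ : KEt T R (pert χ φ) := (k1 χ φ hC.chf hC.inv hP.inv).2.2 hP.pos
  have hld := (k2 H (pert χ φ) hC.ket hQ).1
  have hf' : InvF T R (fun x => ld H x - ld (pert χ φ) x + f x + β * φ x) := by
    refine ⟨?_, ?_⟩
    · have e1 : (fun x => ld H x - ld (pert χ φ) x + f x + β * φ x) =
          fun x => -(ld (pert χ φ) x - ld H x) + f x + β * φ x := by
        funext x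
        ring
      rw [e1]
      exact (hld.1.neg.add hf.1).add (contDiffOn_const.mul hP.inv.1)
    · intro γ x y hxy
      have e1 := hld.2 γ x y hxy
      have e2 := hf.2 γ x y hxy
      have e3 := hP.inv.2 γ x y hxy
      simp only at e1
      change ld H y - ld (pert χ φ) y + f y + β * φ y = ld H x - ld (pert χ φ) x + f x + β * φ x
      rw [e2, e3]
      linarith
  obtain ⟨w', hw', hw⟩ := h1 T R (pert χ φ) hQ _ hf' β hβ
  have hpert : ∀ x ∈ T, pert χ (fun x => φ x + w' x) x = pert (pert χ φ) w' x := by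
    intro x hx
    change χ x + LM (fun x => φ x + w' x) x = χ x + LM φ x + LM w' x
    rw [Pool.Agent.Helper62.SP.LM_add hW hT hP.inv.1 hw'.inv.1 hx, add_assoc]
  refine ⟨fun x => φ x + w' x, ⟨⟨hP.inv.1.add hw'.inv.1, ?_⟩, ?_⟩, ?_⟩
  · intro γ x y hxy
    simp only
    rw [hP.inv.2 γ x y hxy, hw'.inv.2 γ x y hxy]
  · intro x hx
    rw [hpert x hx]
    exact hw'.pos x hx
  · intro x hx
    have e1 := hw x hx
    have e2 : ld (pert χ fun x => φ x + w' x) x = ld (pert (pert χ φ) w') x := by
      unfold ld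
      rw [hpert x hx]
    rw [e2, e1]
    ring

end Pool.Agent.Helper90.HS
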