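import Pool.Agent.Helper90.HS.HCM
import Pool.Agent.Helper2.SP.MOL2

/-! # HS-CDR: continuous weak derivatives are derivatives -/

open Complex Metric Set Filter Topology MeasureTheory
open scoped ContDiff ComplexConjugate ComplexOrder Manifold

namespace Pool.Agent.Helper90.HS

open Pool.Agent.Helper95.Lin Pool.Agent.Helper16.Abund Pool.Agent.Helper92.Orb
  Pool.Agent.Helper10.SP Pool.Agent.Helper36.HS

variable {n : ℕ}

/-- The real linear form with given `∂` and `∂̄` coefficients. -/
noncomputable def Lfm (h : Fin n × Bool → ℂ) : Cn n →L[ℝ] ℂ :=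
  ∑ l, ((1 / 2 * h (l, false)) • ContinuousLinearMap.proj (R := ℝ) (φ := fun _ : Fin n => ℂ) l +
    (1 / 2 * h (l, true)) • ((Complex.conjCLE : ℂ →L[ℝ] ℂ).comp
      (ContinuousLinearMap.proj (R := ℝ) (φ := fun _ : Fin n => ℂ) l)))

theorem Lfm_apply (h : Fin n × Bool → ℂ) (v : Cn n) :
    Lfm h v = 1 / 2 * ∑ l, (v l * h (l, false) + conj (v l) * h (l, true)) := by
  unfold Lfm
  rw [_root_.sum_apply, Finset.mul_sum]
  refine Finset.sum_congr rfl fun l _ => ?_
  simp only [_root_.add_apply, _root_.smul_apply,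
    ContinuousLinearMap.proj_apply, ContinuousLinearMap.comp_apply, smul_eq_mul,
    ContinuousLinearEquiv.coe_coe, Complex.conjCLE_apply]
  ring

/-- `Lfm` is a continuous linear map. -/
theorem Lfm_uc : UniformContinuous (Lfm (n := n)) := by
  let F : (Fin n × Bool → ℂ) →ₗ[ℝ] (Cn n →L[ℝ] ℂ) :=
    { toFun := Lfm
      map_add' := by
        intro h h'
        ext v
        simp only [_root_.add_apply, Lfm_apply, Pi.add_apply]
        rw [← mul_add, ← Finset.sum_add_distrib]
        congr 1
        refine Finset.sum_congr rfl fun l _ => ?_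
        ring
      map_smul' := by
        intro c h
        ext v
        simp only [_root_.smul_apply, Lfm_apply, Pi.smul_apply, RingHom.id_apply,
          Complex.real_smul]
        rw [Finset.mul_sum, Finset.mul_sum, Finset.mul_sum]
        refine Finset.sum_congr rfl fun l _ => ?_
        ring }
  exact (LinearMap.toContinuousLinearMap F).uniformContinuous

/-- A real linear map is determined by its `∂` and `∂̄` coefficients. -/
theorem eq_Lfm (D : Cn n →L[ℝ] ℂ) : D = Lfm fun a =>
    if a.2 then D (Pi.single a.1 1) + I * D (Pi.single a.1 I)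
    else D (Pi.single a.1 1) - I * D (Pi.single a.1 I) := by
  ext v
  rw [Lfm_apply]
  have h1 : v = ∑ l, Pi.single l (v l) := (Finset.univ_sum_single v).symm
  conv_lhs => rw [h1]
  rw [map_sum, Finset.mul_sum]
  refine Finset.sum_congr rfl fun l _ => ?_
  have h2 : (Pi.single l (v l) : Cn n) = (v l).re • (Pi.single l 1 : Cn n) +
      (v l).im • (Pi.single l I : Cn n) := by
    rw [← Pi.single_smul, ← Pi.single_smul, ← Pi.single_add]
    congr 1
    rw [Complex.real_smul, Complex.real_smul, mul_one]
    exact (Complex.re_add_im (v l)).symm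
  rw [h2, map_add, map_smul, map_smul]
  simp only [Bool.false_eq_true, if_false, if_true]
  have h3 : v l = ((v l).re : ℂ) + ((v l).im : ℂ) * I := (Complex.re_add_im (v l)).symm
  have h4 : conj (v l) = ((v l).re : ℂ) - ((v l).im : ℂ) * I := by
    conv_lhs => rw [h3]
    simp only [map_add, map_mul, Complex.conj_ofReal, Complex.conj_I]
    ring
  rw [h4]
  conv_rhs => rw [h3]
  simp only [Complex.real_smul, Complex.add_re, Complex.add_im, Complex.ofReal_re,
    Complex.ofReal_im, Complex.mul_re, Complex.mul_im, Complex.I_re, Complex.I_im, mul_zero,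
    mul_one, sub_zero, add_zero, zero_add]
  ring_nf
  rw [Complex.I_sq]
  ring

theorem fderiv_eq_Lfm (f : Cn n → ℂ) (x : Cn n) :
    fderiv ℝ f x = Lfm fun a => dz a f x := by
  rw [eq_Lfm (fderiv ℝ f x)]
  congr 1
  funext a
  unfold dz
  split_ifs <;> rfl

/-- The mollifications converge uniformly. -/
theorem moll_unif {g : Cn n → ℂ} (hg : Continuous g) (hgc : HasCompactSupport g) :
    TendstoUniformly (fun (j : ℕ) => mollc g (1 / ((j : ℝ) + 1))) g atTop := by
  rw [Metric.tendstoUniformly_iff]
  intro η hη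
  have huc := hgc.uniformContinuous_of_continuous hg
  obtain ⟨ρ, hρ, hρ'⟩ := Metric.uniformContinuous_iff.1 huc (η / 2) (by linarith)
  have h1 : ∀ᶠ j : ℕ in atTop, 1 / ((j : ℝ) + 1) < ρ :=
    (tendsto_one_div_add_atTop_nhds_zero_nat (𝕜 := ℝ)).eventually (gt_mem_nhds hρ)
  filter_upwards [h1] with j hj x
  rw [dist_comm, dist_eq_norm]
  have h2 := Pool.Agent.Helper2.SP.mollc_near (n := n) (ε := 1 / ((j : ℝ) + 1)) (by positivity) hg
    (η := η / 2) x (by
      intro y hy
      have := hρ' (a := x - y) (b := x) (by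
        rw [dist_eq_norm, sub_sub_cancel_left, norm_neg]
        linarith)
      rw [dist_eq_norm] at this
      exact this.le)
  linarith

/-- CDR. -/
theorem cdr : S_CDR := by
  intro n u g hu huc hg hgc hw
  have hli : LocallyIntegrable u := hu.locallyIntegrable
  have h1 : ∀ j : ℕ, ∀ x, HasFDerivAt (mollc u (1 / ((j : ℝ) + 1)))
      (Lfm fun a => mollc (g a) (1 / ((j : ℝ) + 1)) x) x := by
    intro j x
    have hpos : 0 < 1 / ((j : ℝ) + 1) := by positivity
    have h2 := (Pool.Agent.Helper2.SP.mollc_smooth hpos hli).differentiable (by simp) x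
    have h3 : fderiv ℝ (mollc u (1 / ((j : ℝ) + 1))) x =
        Lfm fun a => mollc (g a) (1 / ((j : ℝ) + 1)) x := by
      rw [fderiv_eq_Lfm]
      congr 1
      funext a
      rw [dz_mollc hli (hw a) hpos]
    rw [← h3]
    exact h2.hasFDerivAt
  have h2 : TendstoUniformly (fun (j : ℕ) (x : Cn n) =>
      Lfm fun a => mollc (g a) (1 / ((j : ℝ) + 1)) x) (fun x => Lfm fun a => g a x) atTop := by
    have h3 : TendstoUniformly (fun (j : ℕ) (x : Cn n) (a : Fin n × Bool) =>
        mollc (g a) (1 / ((j : ℝ) + 1)) x) (fun x a => g a x) atTop := by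
      rw [Metric.tendstoUniformly_iff]
      intro η hη
      have h4 : ∀ a, ∀ᶠ j : ℕ in atTop, ∀ x, dist (g a x) (mollc (g a) (1 / ((j : ℝ) + 1)) x) < η :=
        fun a => Metric.tendstoUniformly_iff.1 (moll_unif (hg a) (hgc a)) η hη
      filter_upwards [eventually_all.2 h4] with j hj x
      rw [dist_pi_lt_iff hη]
      exact fun a => hj a x
    exact Lfm_uc.comp_tendstoUniformly h3
  have h3 : ∀ x, HasFDerivAt u (Lfm fun a => g a x) x := fun x =>
    hasFDerivAt_of_tendstoUniformly h2 h1
      (fun y => (moll_unif hu huc).tendsto_at y) x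
  refine ⟨fun x => (h3 x).differentiableAt, fun x v => ?_⟩
  rw [(h3 x).fderiv, Lfm_apply]

end Pool.Agent.Helper90.HS
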