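import Pool.Agent.Helper36.HS.GoalsL
import Pool.Agent.Helper9.SP.ReglB

/-! # HS-HCM: mollification commutes with weak derivatives -/

open Complex Metric Set Filter Topology MeasureTheory
open scoped ContDiff ComplexConjugate ComplexOrder Manifold

namespace Pool.Agent.Helper90.HS

open Pool.Agent.Helper95.Lin Pool.Agent.Helper16.Abund Pool.Agent.Helper92.Orb
  Pool.Agent.Helper10.SP Pool.Agent.Helper36.HS Pool.Agent.Helper9.SP

variable {n : ℕ}

theorem dz_mollc {u g : Cn n → ℂ} (hu : LocallyIntegrable u) {a : Fin n × Bool}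
    (hw : WD univ a u g) {ε : ℝ} (hε : 0 < ε) : dz a (mollc u ε) = mollc g ε := by
  funext x
  have hm := mc_contDiff (n := n) ε
  have hmc := mc_cs (n := n) hε
  have ht : TestC (univ : Set (Cn n)) (fun y => mc n ε (x - y)) :=
    ⟨refl_contDiff hm x, hmc.comp_homeomorph (Homeomorph.subLeft x), subset_univ _⟩
  have h1 := hw _ ht
  rw [Measure.restrict_univ] at h1
  have h2 : dz a (mollc u ε) x = ∫ y, u y * dz a (mc n ε) (x - y) := by
    rw [mollc_eq]
    unfold dz
    split_ifs with ha
    · rw [cdb_cv hu hm hmc]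
      rfl
    · rw [cd_cv hu hm hmc]
      rfl
  have h3 : ∀ y, dz a (fun y => mc n ε (x - y)) y = -(dz a (mc n ε) (x - y)) := by
    intro y
    unfold dz
    split_ifs with ha
    · exact cdb_reflect hm _ x y
    · exact cd_reflect hm _ x y
  rw [h2, mollc_eq]
  simp only [h3, mul_neg] at h1
  rw [integral_neg, neg_inj] at h1
  exact h1

theorem HC_zero {m : ℕ} {u : Cn n → ℂ} (h : HC m u) :
    MemLp u 2 volume ∧ ∃ K, IsCompact K ∧ ∀ x ∉ K, u x = 0 := by
  cases m with
  | zero => exact h
  | succ m => exact h.1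

/-- HCM. -/
theorem hcm : S_HCM := by
  intro n m u hu α
  induction α generalizing m u with
  | nil =>
    intro _
    exact ⟨u, (HC_zero hu).1, (HC_zero hu).2, fun ε _ => rfl⟩
  | cons a β ih =>
    intro hα
    cases m with
    | zero => simp at hα
    | succ m =>
      obtain ⟨g, hg, hw⟩ := hu.2 a
      obtain ⟨v, hv, hv', hv''⟩ := ih m g hg (by simpa using hα)
      refine ⟨v, hv, hv', fun ε hε => ?_⟩
      rw [← hv'' ε hε]
      change Dw β (dz a (mollc u ε)) = _
      rw [dz_mollc (hu.1.1.locallyIntegrable (by norm_num)) hw hε]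

end Pool.Agent.Helper90.HS
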