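import Pool.Agent.Helper15.HS.GoalsC
import Pool.Agent.Helper89.HS.CMP

/-! # HS-RHB: cocompact bounds -/

open Complex Metric Set Filter Topology MeasureTheory
open scoped ContDiff ComplexConjugate ComplexOrder Manifold Matrix

namespace Pool.Agent.Helper90.HS

open Pool.Agent.Helper95.Lin Pool.Agent.Helper16.Abund Pool.Agent.Helper92.Orb
  Pool.Agent.Helper10.SP Pool.Agent.Helper95.RK Pool.Agent.Helper57.HS Pool.Agent.Helper15.HS
  Pool.Agent.Helper89.HS

universe u v

theorem continuousOn_hermi' {n : ℕ} {T : Set (Cn n)} {H : Cn n → Matrix (Fin n) (Fin n) ℂ}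
    (hH : ∀ i j, ContinuousOn (fun x => H x i j) T) (C : Set (Cn n)) (hC : C ⊆ T)
    (S : Set (Cn n)) :
    ContinuousOn (fun p : Cn n × Cn n => (hermi (H p.1) p.2 p.2).re) (C ×ˢ S) := by
  unfold hermi
  refine Complex.continuous_re.comp_continuousOn ?_
  refine continuousOn_finsetSum _ fun i _ => continuousOn_finsetSum _ fun j _ => ?_
  have h1 : ContinuousOn (fun p : Cn n × Cn n => H p.1 i j) (C ×ˢ S) :=
    ((hH i j).mono hC).comp continuousOn_fst (fun p hp => hp.1)
  have h2 : Continuous (fun p : Cn n × Cn n => p.2 i) := (continuous_apply i).comp continuous_snd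
  have h3 : Continuous (fun p : Cn n × Cn n => conj (p.2 j)) :=
    Complex.continuous_conj.comp ((continuous_apply j).comp continuous_snd)
  exact (h1.mul h2.continuousOn).mul h3.continuousOn

theorem hermi_add {n : ℕ} (A B : Matrix (Fin n) (Fin n) ℂ) (e f : Fin n → ℂ) :
    hermi (A + B) e f = hermi A e f + hermi B e f := by
  simp only [hermi, Matrix.add_apply]
  rw [← Finset.sum_add_distrib]
  refine Finset.sum_congr rfl fun i _ => ?_
  rw [← Finset.sum_add_distrib]
  refine Finset.sum_congr rfl fun j _ => ?_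
  ring

theorem hermi_smulM {n : ℕ} (c : ℂ) (A : Matrix (Fin n) (Fin n) ℂ) (e f : Fin n → ℂ) :
    hermi (c • A) e f = c * hermi A e f := by
  simp only [hermi, Matrix.smul_apply, smul_eq_mul, Finset.mul_sum]
  refine Finset.sum_congr rfl fun i _ => Finset.sum_congr rfl fun j _ => ?_
  ring

theorem hermi_neg {n : ℕ} (A : Matrix (Fin n) (Fin n) ℂ) (e f : Fin n → ℂ) :
    hermi (-A) e f = - hermi A e f := by
  simp only [hermi, Matrix.neg_apply, neg_mul, Finset.sum_neg_distrib]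

/-- The quadratic form of a Hermitian matrix is real. -/
theorem hermi_im {n : ℕ} {A : Matrix (Fin n) (Fin n) ℂ} (hA : A.IsHermitian) (e : Fin n → ℂ) :
    (hermi A e e).im = 0 := by
  have h1 : conj (hermi A e e) = hermi A e e := by
    simp only [hermi, map_sum, map_mul, Complex.conj_conj]
    rw [Finset.sum_comm]
    refine Finset.sum_congr rfl fun i _ => Finset.sum_congr rfl fun j _ => ?_
    have h2 := hA.apply i j
    rw [← h2, starRingEnd_apply]
    ring
  exact Complex.conj_eq_iff_im.1 h1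

/-- A one-sided bound, transported to all of `T`. -/
theorem rhb_aux {n : ℕ} {T : Set (Cn n)} {G : Type u} [Group G]
    {R : G → Cn n → Cn n → Prop} {H : Cn n → Matrix (Fin n) (Fin n) ℂ} (hE : Et T R)
    (hH : HerT T R H) {Y : Cn n → Matrix (Fin n) (Fin n) ℂ}
    (hc : ∀ i j, ContinuousOn (fun x => Y x i j) T) (hi : InvH R Y) :
    ∃ K : ℝ, 0 < K ∧ ∀ x ∈ T, ∀ e : Cn n,
      |(hermi (Y x) e e).re| ≤ K * (hermi (H x) e e).re := by
  obtain ⟨C, hCT, hC, hcov⟩ := hE.coc
  have hK : IsCompact (C ×ˢ sphere (0 : Cn n) 1) := hC.prod (isCompact_sphere _ _)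
  have hne : ∀ p ∈ C ×ˢ sphere (0 : Cn n) 1, p.2 ≠ 0 := by
    rintro p ⟨_, hp⟩ h0
    rw [h0] at hp
    simp at hp
  have hHp : ∀ p ∈ C ×ˢ sphere (0 : Cn n) 1, 0 < (hermi (H p.1) p.2 p.2).re := fun p hp =>
    (Complex.pos_iff.1 (hermi_pos (hH.posDef _ (hCT hp.1)) (hne p hp))).1
  have hcont : ContinuousOn (fun p : Cn n × Cn n =>
      |(hermi (Y p.1) p.2 p.2).re| / (hermi (H p.1) p.2 p.2).re) (C ×ˢ sphere (0 : Cn n) 1) :=
    (continuousOn_hermi' hc C hCT _).abs.div (continuousOn_hermi hH.smooth C hCT _)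
      (fun p hp => (hHp p hp).ne')
  obtain ⟨K, hK0, hmax⟩ : ∃ K : ℝ, 0 < K ∧ ∀ p ∈ C ×ˢ sphere (0 : Cn n) 1,
      |(hermi (Y p.1) p.2 p.2).re| ≤ K * (hermi (H p.1) p.2 p.2).re := by
    rcases (C ×ˢ sphere (0 : Cn n) 1).eq_empty_or_nonempty with he | hne'
    · refine ⟨1, one_pos, fun p hp => ?_⟩
      rw [he] at hp
      exact absurd hp (notMem_empty _)
    · obtain ⟨p0, hp0, hp0max⟩ := hK.exists_isMaxOn hne' hcont
      refine ⟨|(hermi (Y p0.1) p0.2 p0.2).re| / (hermi (H p0.1) p0.2 p0.2).re + 1,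
        ?_, fun p hp => ?_⟩
      · have := div_nonneg (abs_nonneg (hermi (Y p0.1) p0.2 p0.2).re) (hHp p0 hp0).le
        linarith
      · have h1 := hp0max hp
        have h2 := (div_le_iff₀ (hHp p hp)).1 h1
        have h3 := hHp p hp
        nlinarith
  have hall : ∀ x ∈ C, ∀ e : Cn n,
      |(hermi (Y x) e e).re| ≤ K * (hermi (H x) e e).re := by
    intro x hx e
    rcases eq_or_ne e 0 with rfl | he
    · simp [hermi]
    · have hn : 0 < ‖e‖ := norm_pos_iff.2 he
      have h1 := hmax (x, ((‖e‖⁻¹ : ℝ) : ℂ) • e) ⟨hx, by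
        rw [mem_sphere_zero_iff_norm, norm_smul, Complex.norm_real, norm_inv, norm_norm,
          inv_mul_cancel₀ hn.ne']⟩
      simp only [hermi_smul, Complex.re_ofReal_mul] at h1
      have h2 : 0 < (‖e‖⁻¹) ^ 2 := by positivity
      rw [abs_mul, abs_of_pos h2] at h1
      have h3 : (‖e‖⁻¹) ^ 2 * |(hermi (Y x) e e).re| ≤
          (‖e‖⁻¹) ^ 2 * (K * (hermi (H x) e e).re) := by linarith
      exact le_of_mul_le_mul_left h3 h2
  refine ⟨K, hK0, fun x hx => ?_⟩
  obtain ⟨γ, y, hy, hR⟩ := hcov x hx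
  obtain ⟨τ, U, W, hU, hW, hxU, hyW, hUT, hWT, hdiff, hinj, hmaps, hdet, hiff⟩ :=
    hE.loc γ x y hR
  have hArr : Arr R U τ := ⟨hU, hdiff, γ, fun x' hx' =>
    (hiff x' hx' (τ x') (hmaps hx')).2 rfl⟩
  have hτx : τ x = y := ((hiff x hxU y hyW).1 hR).symm
  intro e
  have h1 := hH.inv U τ hArr x hxU e e
  have h2 := hi U τ hArr x hxU e e
  rw [← h1, ← h2, hτx]
  exact hall y hy _

/-- RHB. -/
theorem rhb : S_RHB.{u} := by
  intro n T G _ R H hE hH Y hY hc hi
  obtain ⟨K, hK, h⟩ := rhb_aux hE hH hc hi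
  have hKH : ∀ x ∈ T, ((K : ℂ) • H x).IsHermitian := by
    intro x hx
    rw [Matrix.IsHermitian, Matrix.conjTranspose_smul, (hH.posDef x hx).isHermitian.eq]
    congr 1
    exact Complex.conj_ofReal K
  refine ⟨K, hK, fun x hx => ⟨?_, ?_⟩⟩
  · have hh := (hKH x hx).add (hY x hx)
    refine Matrix.PosSemidef.of_dotProduct_mulVec_nonneg hh fun w => ?_
    rw [star_dot_hermi, Complex.nonneg_iff]
    refine ⟨?_, (hermi_im hh _).symm⟩
    rw [hermi_add, hermi_smulM, Complex.add_re, Complex.re_ofReal_mul]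
    have := neg_le_of_abs_le (h x hx (star w))
    linarith
  · have hh := (hKH x hx).sub (hY x hx)
    refine Matrix.PosSemidef.of_dotProduct_mulVec_nonneg hh fun w => ?_
    rw [star_dot_hermi, Complex.nonneg_iff]
    refine ⟨?_, (hermi_im hh _).symm⟩
    rw [sub_eq_add_neg, hermi_add, hermi_neg, hermi_smulM, Complex.add_re, Complex.neg_re,
      Complex.re_ofReal_mul]
    have := le_of_abs_le (h x hx (star w))
    linarith

end Pool.Agent.Helper90.HS
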