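import Pool.Agent.Helper15.HS.GoalsC

/-! # HS-DIAG: common subsequences -/

open Complex Metric Set Filter Topology MeasureTheory

namespace Pool.Agent.Helper90.HS

open Pool.Agent.Helper15.HS

/-- DIAG. -/
theorem diag : S_DIAG := by
  intro E _ K F hK hF
  have hc : IsCompact (Set.pi Set.univ K) := isCompact_univ_pi hK
  obtain ⟨f, hf, φ, hφ, hφt⟩ := hc.tendsto_subseq (x := fun j i => F i j) (fun j i _ => hF i j)
  refine ⟨φ, hφ, fun i => ⟨f i, hf i (mem_univ i), ?_⟩⟩
  exact (tendsto_pi_nhds.mp hφt) i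

end Pool.Agent.Helper90.HS
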