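import Pool.Agent.Helper15.HS.GoalsC

/-! # HS-KAPI: independence of the partition function -/

open Complex Metric Set Filter Topology MeasureTheory
open scoped ContDiff ComplexConjugate ComplexOrder Manifold Matrix

namespace Pool.Agent.Helper90.HS

open Pool.Agent.Helper95.Lin Pool.Agent.Helper16.Abund Pool.Agent.Helper92.Orb
  Pool.Agent.Helper10.SP Pool.Agent.Helper95.RK Pool.Agent.Helper57.HS Pool.Agent.Helper15.HS

universe u v

/-- The complex version of the sum of a real function over the arrows. -/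
theorem AS_ofReal {n : ℕ} {G : Type u} (R : G → Cn n → Cn n → Prop) (x : Cn n) (f : Cn n → ℝ) :
    AS R x (fun _ y => ((f y : ℝ) : ℂ)) = ((AS R x (fun _ y => f y) : ℝ) : ℂ) := by
  unfold AS
  have h1 := AddMonoidHom.map_finsum_of_injective Complex.ofRealHom.toAddMonoidHom
    (by
      intro a b hab
      exact Complex.ofReal_injective hab)
    (fun p : G × Cn n => ∑ᶠ (_ : R p.1 x p.2), f p.2)
  have h2 : ∀ r : ℝ, Complex.ofRealHom.toAddMonoidHom r = ((r : ℝ) : ℂ) := fun r => rfl
  rw [h2] at h1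
  rw [h1]
  refine finsum_congr fun p => ?_
  rw [AddMonoidHom.map_finsum_Prop]
  rfl

/-- KAPI. -/
theorem kapi (hS : S_SWAP.{u}) : S_KAPI.{u} := by
  intro n T G _ R hE κ κ' hκ hκ' ρ hρ hρi
  have h1 := (hS T R hE ρ hρ hρi (tsupport κ) hκ.test.2.2 hκ.test.2.1 (tsupport κ') hκ'.test.2.2
    hκ'.test.2.1 (fun x => ((κ x : ℝ) : ℂ)) (fun x => ((κ' x : ℝ) : ℂ)) ?_ ?_ ?_ ?_).2.2
  · have e1 : ∫ x in T, ((κ x : ℝ) : ℂ) * AS R x (fun _ y => ((κ' y : ℝ) : ℂ)) * (ρ x : ℂ) =
        ((∫ x in T, κ x * ρ x : ℝ) : ℂ) := by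
      rw [← integral_complex_ofReal]
      refine setIntegral_congr_fun hE.isOpen.measurableSet fun x hx => ?_
      rw [AS_ofReal, hκ'.sum x hx]
      push_cast
      ring
    have e2 : ∫ x in T, ((κ' x : ℝ) : ℂ) * AS R x (fun _ y => ((κ y : ℝ) : ℂ)) * (ρ x : ℂ) =
        ((∫ x in T, κ' x * ρ x : ℝ) : ℂ) := by
      rw [← integral_complex_ofReal]
      refine setIntegral_congr_fun hE.isOpen.measurableSet fun x hx => ?_
      rw [AS_ofReal, hκ.sum x hx]
      push_cast
      ring
    rw [e1, e2] at h1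
    exact_mod_cast h1
  · exact (Complex.continuous_ofReal.comp hκ.test.1.continuous).integrable_of_hasCompactSupport
      (hκ.test.2.1.comp_left (g := fun r : ℝ => ((r : ℝ) : ℂ)) Complex.ofReal_zero)
  · intro x hx
    rw [image_eq_zero_of_notMem_tsupport hx, Complex.ofReal_zero]
  · exact Complex.continuous_ofReal.comp hκ'.test.1.continuous
  · intro x hx
    rw [image_eq_zero_of_notMem_tsupport hx, Complex.ofReal_zero]

end Pool.Agent.Helper90.HS
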