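import Pool.Agent.Helper15.HS.GoalsC

/-! # HS-LOWQ: lower bound of the masses -/

open Complex Metric Set Filter Topology MeasureTheory
open scoped ContDiff ComplexConjugate ComplexOrder Manifold Matrix

namespace Pool.Agent.Helper90.HS

open Pool.Agent.Helper95.Lin Pool.Agent.Helper16.Abund Pool.Agent.Helper92.Orb
  Pool.Agent.Helper10.SP Pool.Agent.Helper95.RK Pool.Agent.Helper57.HS Pool.Agent.Helper15.HS

universe u v

/-- LOWQ. -/
theorem lowq (h1 : S_L1Q.{u}) : S_LOWQ.{u} := by
  intro n T G _ R H hK K C hCT hC hv
  obtain ⟨B, hB⟩ := h1 T R H hK K C hCT hC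
  have hfin : volume C ≠ ⊤ := hC.measure_lt_top.ne
  have hvr : 0 < volume.real C := by
    unfold Measure.real
    exact ENNReal.toReal_pos hv.ne' hfin
  set V := volume.real C with hV
  refine ⟨Real.exp (-(B / V)) * V, by positivity, fun u hu => ?_⟩
  have hcu : ContinuousOn u C := (hu.inv.1.continuousOn).mono hCT
  have hiu : IntegrableOn u C := hcu.integrableOn_compact hC
  have hie : IntegrableOn (fun x => Real.exp (u x)) C :=
    (Real.continuous_exp.comp_continuousOn hcu).integrableOn_compact hC
  have hic : IntegrableOn (fun _ : Cn n => 1 + B / V) C := by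
    exact integrableOn_const hfin
  have hil : IntegrableOn (fun x => Real.exp (-(B / V)) * ((1 + B / V) + u x)) C :=
    (hic.add hiu).const_mul _
  have h2 : ∫ x in C, Real.exp (-(B / V)) * ((1 + B / V) + u x) ≤ ∫ x in C, Real.exp (u x) := by
    refine integral_mono hil hie fun x => ?_
    simp only
    have h3 := Real.add_one_le_exp (u x + B / V)
    have h4 : Real.exp (u x) = Real.exp (-(B / V)) * Real.exp (u x + B / V) := by
      rw [← Real.exp_add]
      congr 1
      ring
    rw [h4]
    refine mul_le_mul_of_nonneg_left ?_ (Real.exp_pos _).le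
    linarith
  refine le_trans ?_ h2
  rw [integral_const_mul]
  refine mul_le_mul_of_nonneg_left ?_ (Real.exp_pos _).le
  rw [integral_add hic hiu, setIntegral_const, smul_eq_mul]
  have h5 : -∫ x in C, |u x| ≤ ∫ x in C, u x := by
    rw [← integral_neg]
    exact integral_mono hiu.abs.neg hiu fun x => neg_abs_le (u x)
  have h6 := hB u hu
  have h7 : volume.real C * (1 + B / V) = V + B := by
    rw [← hV]
    field_simp
  rw [h7]
  linarith

end Pool.Agent.Helper90.HS
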