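import Pool.Agent.Helper15.HS.GoalsC

/-! # HS-ARZ: Arzelà-Ascoli on countably many balls -/

open Complex Metric Set Filter Topology MeasureTheory
open scoped NNReal BoundedContinuousFunction

namespace Pool.Agent.Helper90.HS

open Pool.Agent.Helper95.Lin Pool.Agent.Helper15.HS Pool.Agent.Helper16.Abund

/-- A family of functions on a compact ball, uniformly bounded and uniformly Lipschitz, lies in a
compact set of bounded continuous functions. -/
theorem arz_compact {n : ℕ} {ι : Type} [Fintype ι] (a : Cn n) (r s L : ℝ) :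
    IsCompact (closure {f : (closedBall a r) →ᵇ (ι → ℂ) |
      (∀ x, f x ∈ closedBall (0 : ι → ℂ) |s|) ∧ LipschitzWith (⟨|L|, abs_nonneg L⟩ : ℝ≥0) f}) := by
  have : CompactSpace (closedBall a r) := isCompact_iff_compactSpace.1 (isCompact_closedBall a r)
  refine BoundedContinuousFunction.arzela_ascoli (closedBall (0 : ι → ℂ) |s|)
    (isCompact_closedBall _ _) _ (fun f x hf => hf.1 x) ?_
  refine (LipschitzWith.uniformEquicontinuous _ (⟨|L|, abs_nonneg L⟩ : ℝ≥0) ?_).equicontinuous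
  intro f
  exact f.2.2

/-- ARZ. -/
theorem arz (hD : S_DIAG) : S_ARZ := by
  intro n ι _ a r s L F hr hb hl
  classical
  have hcs : ∀ i, CompactSpace (closedBall (a i) (r i)) := fun i =>
    isCompact_iff_compactSpace.1 (isCompact_closedBall (a i) (r i))
  have hlip : ∀ i j, LipschitzWith (⟨|L i|, abs_nonneg (L i)⟩ : ℝ≥0)
      (fun x : closedBall (a i) (r i) => F i j x) := by
    intro i j
    refine LipschitzWith.of_dist_le_mul fun x y => ?_
    rw [dist_pi_le_iff (by positivity)]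
    intro c
    rw [dist_eq_norm]
    refine (hl i j x x.2 y y.2 c).trans ?_
    rw [Subtype.dist_eq, dist_eq_norm]
    exact mul_le_mul_of_nonneg_right (le_abs_self _) (norm_nonneg _)
  let G : ∀ i, ℕ → ((closedBall (a i) (r i)) →ᵇ (ι → ℂ)) := fun i j =>
    @BoundedContinuousFunction.mkOfCompact _ _ _ _ (hcs i)
      ⟨fun x => F i j x, (hlip i j).continuous⟩
  have hG : ∀ i j (x : closedBall (a i) (r i)), G i j x = F i j x := fun i j x => rfl
  obtain ⟨φ, hφ, hlim⟩ := hD (fun i => ((closedBall (a i) (r i)) →ᵇ (ι → ℂ)))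
    (fun i => closure {f | (∀ x, f x ∈ closedBall (0 : ι → ℂ) |s i|) ∧
      LipschitzWith (⟨|L i|, abs_nonneg (L i)⟩ : ℝ≥0) f}) G
    (fun i => arz_compact (a i) (r i) (s i) (L i)) (by
      intro i j
      refine subset_closure ⟨fun x => ?_, ?_⟩
      · rw [mem_closedBall_zero_iff, hG, pi_norm_le_iff_of_nonneg (abs_nonneg _)]
        exact fun c => (hb i j x x.2 c).trans (le_abs_self _)
      · exact hlip i j)
  refine ⟨φ, hφ, fun i => ?_⟩
  obtain ⟨f, -, hf⟩ := hlim i
  refine ⟨fun x => if h : x ∈ closedBall (a i) (r i) then f ⟨x, h⟩ else 0, fun δ hδ => ?_⟩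
  filter_upwards [(Metric.tendsto_nhds.1 hf) δ hδ] with j hj x hx c
  rw [dif_pos hx]
  have h1 : dist (G i (φ j) ⟨x, hx⟩) (f ⟨x, hx⟩) ≤ dist (G i (φ j)) f :=
    BoundedContinuousFunction.dist_coe_le_dist _
  have h2 : dist (G i (φ j) ⟨x, hx⟩ c) (f ⟨x, hx⟩ c) ≤
      dist (G i (φ j) ⟨x, hx⟩) (f ⟨x, hx⟩) := dist_le_pi_dist _ _ c
  rw [hG, dist_eq_norm] at h2
  exact (h2.trans h1).trans hj.le

end Pool.Agent.Helper90.HS
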