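import Pool.Agent.Helper15.HS.GoalsC

/-! # HS-L1Q: integral bound for quasi-plurisubharmonic functions -/

open Complex Metric Set Filter Topology MeasureTheory
open scoped ContDiff ComplexConjugate ComplexOrder Manifold Matrix

namespace Pool.Agent.Helper90.HS

open Pool.Agent.Helper95.Lin Pool.Agent.Helper16.Abund Pool.Agent.Helper92.Orb
  Pool.Agent.Helper10.SP Pool.Agent.Helper95.RK Pool.Agent.Helper57.HS Pool.Agent.Helper15.HS

universe u v

/-- The Levi matrix of `u - m`. -/
theorem LM_sub_const {n : ℕ} (u : Cn n → ℝ) (m : ℝ) (x : Cn n) :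
    LM (fun y => u y - m) x = LM u x := by
  have h1 : ∀ k, cdb k (fun y => (((fun y => u y - m) y : ℝ) : ℂ)) =
      cdb k (fun y => ((u y : ℝ) : ℂ)) := by
    intro k
    funext z
    unfold cdb
    have h2 : (fun y => (((fun y => u y - m) y : ℝ) : ℂ)) = fun y => ((u y : ℝ) : ℂ) - (m : ℂ) := by
      funext y
      push_cast
      rfl
    rw [h2, fderiv_sub_const]
  ext j k
  unfold LM
  simp only [Matrix.of_apply]
  rw [h1 k]

/-- Integrability of `κ g` for `g` continuous on `T`. -/
theorem integrableOn_kappa {n : ℕ} {T : Set (Cn n)} (hT : IsOpen T) {κ : Cn n → ℝ}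
    (hκ : TestF T κ) {g : Cn n → ℝ} (hg : ContinuousOn g T) :
    IntegrableOn (fun x => κ x * g x) T := by
  have h1 : IntegrableOn (fun x => κ x * g x) (tsupport κ) :=
    ((hκ.1.continuous.continuousOn).mul (hg.mono hκ.2.2)).integrableOn_compact hκ.2.1
  refine h1.of_forall_sdiff_eq_zero hT.measurableSet fun x hx => ?_
  rw [image_eq_zero_of_notMem_tsupport hx.2, zero_mul]

/-- L1Q. -/
theorem l1q (hP : S_PUE.{u}) (hD : S_DETI.{u}) (hL : S_LOCB.{u}) (hA : S_ALPHA.{u}) :
    S_L1Q.{u} := by
  intro n T G _ R H hK K C hCT hC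
  by_cases hK0 : 0 ≤ K
  swap
  · refine ⟨0, fun u hu => ?_⟩
    obtain ⟨x, hx, h1⟩ := hu.ge
    have h2 := hu.le x hx
    linarith
  have hE := hK.et
  have hT := hE.isOpen
  obtain ⟨κ, hκ⟩ := hP T R hE
  obtain ⟨B, hB, hloc⟩ := hL T R H hK κ hκ C hCT hC
  obtain ⟨α, hα, K', hK'⟩ := hA T R H hK κ hκ (K + 1) (by linarith)
  obtain ⟨hd1, hd2, -⟩ := hD T R H hK
  refine ⟨B * (α⁻¹ * K') + K * volume.real C, fun u hu => ?_⟩
  -- the maximum
  obtain ⟨C₀, hC₀T, hC₀, hcov⟩ := hE.coc
  obtain ⟨y₀, hy₀⟩ := hE.nonempty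
  obtain ⟨-, z₀, hz₀, -⟩ := hcov y₀ hy₀
  obtain ⟨x₀, hx₀C, hmax⟩ := hC₀.exists_isMaxOn ⟨z₀, hz₀⟩ (hu.inv.1.continuousOn.mono hC₀T)
  have hx₀ := hC₀T hx₀C
  have hM : ∀ y ∈ T, u y ≤ u x₀ := by
    intro y hy
    obtain ⟨γ, z, hz, hR⟩ := hcov y hy
    rw [← hu.inv.2 γ y z hR]
    exact hmax hz
  have hm : |u x₀| ≤ K := by
    obtain ⟨x, hx, h1⟩ := hu.ge
    exact abs_le.2 ⟨h1.trans (hM x hx), hu.le x₀ hx₀⟩
  set m := u x₀ with hm_def
  have hw : InvF T R (fun x => u x - m) := by
    refine ⟨hu.inv.1.sub contDiffOn_const, fun γ x y hxy => ?_⟩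
    simp only
    rw [hu.inv.2 γ x y hxy]
  have hwc : ContinuousOn (fun x => u x - m) T := hw.1.continuousOn
  have hexp := hK' (fun x => u x - m) hw (by
    intro x hx
    rw [LM_sub_const]
    have e1 : (((K + 1 : ℝ)) : ℂ) • H x + LM u x = (LM u x + (K : ℂ) • H x) + H x := by
      push_cast
      rw [add_smul, one_smul]
      abel
    rw [e1]
    exact (hu.qp x hx).add (hK.posDef x hx).posSemidef) (by
    intro x hx
    have := hM x hx
    linarith) ⟨x₀, hx₀, by simp only [hm_def, sub_self]⟩
  have h1 := hloc (fun x => |u x - m|) hwc.abs (fun x _ => abs_nonneg _) (by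
    intro γ x y hxy
    rw [hu.inv.2 γ x y hxy])
  have h2 : ∫ x in T, κ x * (H x).det.re * |u x - m| ≤ α⁻¹ * K' := by
    have h3 : ∫ x in T, κ x * (H x).det.re * |u x - m| ≤
        ∫ x in T, α⁻¹ * (κ x * (H x).det.re * Real.exp (-α * (u x - m))) := by
      refine setIntegral_mono_on ?_ ?_ hT.measurableSet fun x hx => ?_
      · have := integrableOn_kappa (g := fun x => (H x).det.re * |u x - m|) hT hκ.test
          (hd2.continuousOn.mul hwc.abs)
        exact this.congr_fun (fun x _ => (mul_assoc _ _ _).symm) hT.measurableSet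
      · refine Integrable.const_mul ?_ _
        have := integrableOn_kappa (g := fun x => (H x).det.re * Real.exp (-α * (u x - m))) hT
          hκ.test (hd2.continuousOn.mul
            (Real.continuous_exp.comp_continuousOn (continuousOn_const.mul hwc)))
        exact this.congr_fun (fun x _ => (mul_assoc _ _ _).symm) hT.measurableSet
      · have e1 : 0 ≤ κ x * (H x).det.re := mul_nonneg (hκ.nonneg x) (hd1 x hx).2.1.le
        have e2 : |u x - m| ≤ α⁻¹ * Real.exp (-α * (u x - m)) := by
          have e3 : u x - m ≤ 0 := by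
            have := hM x hx
            linarith
          rw [abs_of_nonpos e3, le_inv_mul_iff₀ hα]
          have e4 := Real.add_one_le_exp (-α * (u x - m))
          nlinarith
        calc κ x * (H x).det.re * |u x - m| ≤
            κ x * (H x).det.re * (α⁻¹ * Real.exp (-α * (u x - m))) :=
              mul_le_mul_of_nonneg_left e2 e1
          _ = _ := by ring
    refine h3.trans ?_
    rw [integral_const_mul]
    refine mul_le_mul_of_nonneg_left ?_ (inv_pos.2 hα).le
    exact hexp
  have hfin : volume C ≠ ⊤ := hC.measure_lt_top.ne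
  have h4 : IntegrableOn (fun x => |u x - m|) C :=
    (hwc.abs.mono hCT).integrableOn_compact hC
  have h5 : IntegrableOn (fun x => |u x|) C :=
    ((hu.inv.1.continuousOn.abs).mono hCT).integrableOn_compact hC
  have h6 : IntegrableOn (fun _ : Cn n => K) C := integrableOn_const hfin
  calc ∫ x in C, |u x| ≤ ∫ x in C, (|u x - m| + K) := by
        refine integral_mono h5 (h4.add h6) fun x => ?_
        simp only
        have e1 : |u x| ≤ |u x - m| + |m| := by
          have := abs_add_le (u x - m) m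
          rwa [sub_add_cancel] at this
        linarith
    _ = (∫ x in C, |u x - m|) + K * volume.real C := by
        rw [integral_add h4 h6, setIntegral_const, smul_eq_mul, mul_comm]
    _ ≤ B * (α⁻¹ * K') + K * volume.real C := by
        have := mul_le_mul_of_nonneg_left h2 hB.le
        linarith

end Pool.Agent.Helper90.HS
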