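import Pool.Agent.Helper36.HS.GoalsL
import Pool.Agent.Helper45.Lin.KMain

/-! # HS-LOS: smooth representatives -/

open Complex Metric Set Filter Topology MeasureTheory
open scoped ContDiff ComplexConjugate ComplexOrder Manifold

namespace Pool.Agent.Helper90.HS

open Pool.Agent.Helper95.Lin Pool.Agent.Helper16.Abund Pool.Agent.Helper92.Orb
  Pool.Agent.Helper10.SP Pool.Agent.Helper36.HS

/-- The local representative. -/
theorem los_local (h1 : S_HCL) (h2 : S_SMC) {n : ℕ} {T : Set (Cn n)} (hT : IsOpen T)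
    {f : Cn n → ℂ} (hf : ∀ m, HL T m f) {x₀ : Cn n} (hx₀ : x₀ ∈ T) :
    ∃ r > 0, ball x₀ r ⊆ T ∧ ∃ g : Cn n → ℂ, ContDiff ℝ ∞ g ∧
      f =ᵐ[volume.restrict (ball x₀ r)] g := by
  obtain ⟨r, hr, hrT⟩ := Metric.isOpen_iff.1 hT x₀ hx₀
  have hsub : closedBall x₀ (r / 2) ⊆ T :=
    (closedBall_subset_ball (by linarith)).trans hrT
  obtain ⟨χ, hχ, -, -, hχ1⟩ := Pool.Agent.Helper45.Lin.exists_cutoff hT
    (isCompact_closedBall x₀ (r / 2)) hsub
  have hχc : TestC T (fun x => ((χ x : ℝ) : ℂ)) := by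
    refine ⟨Complex.ofRealCLM.contDiff.comp hχ.1,
      hχ.2.1.comp_left (g := fun t : ℝ => (t : ℂ)) Complex.ofReal_zero, ?_⟩
    refine subset_trans ?_ hχ.2.2
    exact closure_mono fun x hx h0 => hx (by
      change ((χ x : ℝ) : ℂ) = 0
      rw [h0, Complex.ofReal_zero])
  have h3 : ∀ m : ℕ, ∃ g : Cn n → ℂ, ContDiff ℝ m g ∧ HasCompactSupport g ∧
      (fun x => ((χ x : ℝ) : ℂ) * f x) =ᵐ[volume] g := fun m =>
    h2 m _ (h1 T hT (2 * n + m) f _ (hf _) hχc)
  choose g hg hgc hge using h3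
  have h4 : ∀ m, g m = g 0 := by
    intro m
    exact ((hg m).continuous.ae_eq_iff_eq volume (hg 0).continuous).1
      ((hge m).symm.trans (hge 0))
  refine ⟨r / 2, by linarith, ball_subset_closedBall.trans hsub, g 0, ?_, ?_⟩
  · rw [contDiff_infty]
    intro m
    rw [← h4 m]
    exact hg m
  · have h5 : (fun x => ((χ x : ℝ) : ℂ) * f x) =ᵐ[volume.restrict (ball x₀ (r / 2))] g 0 :=
      ae_restrict_of_ae (hge 0)
    filter_upwards [h5, ae_restrict_mem measurableSet_ball] with x hx hxb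
    rw [← hx, hχ1 x (ball_subset_closedBall hxb), Complex.ofReal_one, one_mul]

/-- LOS. -/
theorem los (h1 : S_HCL) (h2 : S_SMC) : S_LOS := by
  intro n T hT f hf
  have h3 : ∀ x₀ : Cn n, ∃ (r : ℝ) (g : Cn n → ℂ), x₀ ∈ T → 0 < r ∧ ball x₀ r ⊆ T ∧
      ContDiff ℝ ∞ g ∧ f =ᵐ[volume.restrict (ball x₀ r)] g := by
    intro x₀
    by_cases hx₀ : x₀ ∈ T
    · obtain ⟨r, hr, hrT, g, hg, hge⟩ := los_local h1 h2 hT hf hx₀
      exact ⟨r, g, fun _ => ⟨hr, hrT, hg, hge⟩⟩
    · exact ⟨1, 0, fun h => absurd h hx₀⟩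
  choose r g h using h3
  have hkey : ∀ x ∈ T, ∀ y ∈ ball x (r x), g y y = g x y := by
    intro x hx y hy
    have hyT : y ∈ T := (h x hx).2.1 hy
    obtain ⟨hr1, -, hg1, he1⟩ := h x hx
    obtain ⟨hr2, -, hg2, he2⟩ := h y hyT
    have e1 : g y =ᵐ[volume.restrict (ball y (r y) ∩ ball x (r x))] g x := by
      have a1 := ae_restrict_of_ae_restrict_of_subset
        (inter_subset_left : ball y (r y) ∩ ball x (r x) ⊆ _) he2
      have a2 := ae_restrict_of_ae_restrict_of_subset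
        (inter_subset_right : ball y (r y) ∩ ball x (r x) ⊆ _) he1
      filter_upwards [a1, a2] with z b1 b2
      rw [← b1, b2]
    exact Measure.eqOn_open_of_ae_eq e1 (isOpen_ball.inter isOpen_ball)
      hg2.continuous.continuousOn hg1.continuous.continuousOn
      ⟨mem_ball_self hr2, hy⟩
  refine ⟨fun x => g x x, ?_, ?_⟩
  · intro x hx
    refine ContDiffAt.contDiffWithinAt ?_
    refine ((h x hx).2.2.1.contDiffAt).congr_of_eventuallyEq ?_
    filter_upwards [ball_mem_nhds x (h x hx).1] with y hy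
    exact hkey x hx y hy
  · rw [ae_restrict_iff' hT.measurableSet, ae_iff]
    refine measure_null_of_locally_null _ fun x hx => ?_
    have hxT : x ∈ T := by
      by_contra h0
      exact hx fun h' => absurd h' h0
    obtain ⟨hr1, hb, hg1, he1⟩ := h x hxT
    refine ⟨{y | ¬(y ∈ T → f y = g y y)} ∩ ball x (r x),
      inter_mem_nhdsWithin _ (ball_mem_nhds x hr1), ?_⟩
    rw [Filter.EventuallyEq, ae_restrict_iff' measurableSet_ball, ae_iff] at he1
    refine measure_mono_null ?_ he1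
    rintro y ⟨hy1, hy2⟩ hy3
    refine hy1 fun _ => ?_
    rw [hy3 hy2, hkey x hxT y hy2]

end Pool.Agent.Helper90.HS
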